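import Pool.Agent.H66.SG.T7
import Pool.Agent.H40.AG.Base

/-!
SHARP GAP (`MP_c59857_nt`): the row CB1 (the computation in the descent).
-/

set_option autoImplicit false

open MeasureTheory ProbabilityTheory Filter Topology Finset
open scoped Nat ENNReal

namespace Pool.Agent.H66.SG.CB1

open Pool.Agent.H67.AG (Inv Rt Av SA kap JJ TT InvZ nxt TX XX PX Fac Tup dl Mis T_NXI T_TRI T_MN)
open Pool.Agent.H40.AG (QQ dg inv_le inv_rt rt_le set_inv_iff av_meas av_bdd bint T_PNL T_PXL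
  T_PXT T_PXF T_MEM T_QQT)

section gen

variable {Ω : Type} [mΩ : MeasurableSpace Ω] {k : ℕ}

theorem dl_m {y y' : Fin k → Ω → ℝ} (hy : Tup y) (hy' : Tup y') (i : Fin k) :
    Measurable (dl y y' i) := by
  unfold dl
  exact Measurable.ite (measurableSet_eq_fun (hy.1 i) (hy'.1 i)) measurable_const measurable_const

omit mΩ in
theorem dl_b (y y' : Fin k → Ω → ℝ) (i : Fin k) (ω : Ω) : |dl y y' i ω| ≤ 1 := by
  unfold dl
  split_ifs <;> simp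

theorem dl_i {P : Measure Ω} [IsProbabilityMeasure P] {y y' : Fin k → Ω → ℝ} (hy : Tup y)
    (hy' : Tup y') (i : Fin k) : Integrable (dl y y' i) P :=
  bint (dl_m hy hy' i) ⟨1, dl_b y y' i⟩

end gen

section gen2

variable {Ω : Type} {k : ℕ}

theorem mis_set (m : MeasurableSpace Ω) [mΩ : MeasurableSpace Ω] {P : Measure Ω}
    [IsProbabilityMeasure P] (hm : m ≤ mΩ)
    {y y' : Fin k → Ω → ℝ} (hy : Tup y) (hy' : Tup y') {A : Set Ω}
    (hA : MeasurableSet[m] A) :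
    ∫ ω in A, Mis P m y y' ω ∂P = ∑ i, P.real (A ∩ {ω | y i ω ≠ y' i ω}) := by
  unfold Mis
  rw [integral_finsetSum _ (fun i _ => integrable_condExp.integrableOn)]
  refine Finset.sum_congr rfl fun i _ => ?_
  rw [setIntegral_condExp hm (dl_i hy hy' i) hA]
  have hS : MeasurableSet {ω | y i ω ≠ y' i ω} :=
    (measurableSet_eq_fun (hy.1 i) (hy'.1 i)).compl
  have h1 : dl y y' i = Set.indicator {ω | y i ω ≠ y' i ω} (fun _ => (1 : ℝ)) := by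
    funext ω
    by_cases h : y i ω = y' i ω
    · simp [dl, h]
    · simp [dl, h]
  rw [h1, setIntegral_indicator hS]
  simp

theorem mis_meas (m : MeasurableSpace Ω) [mΩ : MeasurableSpace Ω] {P : Measure Ω}
    (y y' : Fin k → Ω → ℝ) : Measurable[m] (Mis P m y y') := by
  unfold Mis
  exact Finset.measurable_sum _ fun i _ => stronglyMeasurable_condExp.measurable

/-- the part of an invariant set with large mismatch -/
theorem mis_low (m : MeasurableSpace Ω) [mΩ : MeasurableSpace Ω] {P : Measure Ω}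
    [IsProbabilityMeasure P] (hm : m ≤ mΩ)
    {y y' : Fin k → Ω → ℝ} (hy : Tup y) (hy' : Tup y') {A : Set Ω}
    (hA : MeasurableSet[m] A) (t : ℝ) :
    MeasurableSet[m] (A ∩ {ω | t < Mis P m y y' ω}) ∧
    t * P.real (A ∩ {ω | t < Mis P m y y' ω}) ≤
      ∑ i, P.real ((A ∩ {ω | t < Mis P m y y' ω}) ∩ {ω | y i ω ≠ y' i ω}) := by
  have hS : MeasurableSet[m] (A ∩ {ω | t < Mis P m y y' ω}) :=
    hA.inter (measurableSet_lt measurable_const (mis_meas m y y'))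
  refine ⟨hS, ?_⟩
  rw [← mis_set m hm hy hy' hS]
  have hI : Integrable (Mis P m y y') P := by
    unfold Mis
    exact integrable_finsetSum _ fun i _ => integrable_condExp
  calc t * P.real (A ∩ {ω | t < Mis P m y y' ω})
      = ∫ _ω in A ∩ {ω | t < Mis P m y y' ω}, t ∂P := by
        rw [setIntegral_const, smul_eq_mul, mul_comm]
    _ ≤ ∫ ω in A ∩ {ω | t < Mis P m y y' ω}, Mis P m y y' ω ∂P := by
        refine setIntegral_mono_on (integrable_const _).integrableOn hI.integrableOn (hm _ hS) ?_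
        intro ω hω
        exact le_of_lt hω.2

theorem mis_symm (m : MeasurableSpace Ω) [mΩ : MeasurableSpace Ω] (P : Measure Ω)
    (y y' : Fin k → Ω → ℝ) : Mis P m y y' = Mis P m y' y := by
  unfold Mis
  have h : ∀ i, dl y y' i = dl y' y i := by
    intro i
    funext ω
    unfold dl
    simp only [eq_comm]
  simp only [h]

end gen2

section tx

variable {X : Type} [mX : MeasurableSpace X]

theorem TX_it11 (T : X ≃ᵐ X) (n l : ℕ) (q : XX X n) : ((TX T n)^[l] q).1.1 = T^[l] q.1.1 := by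
  induction l generalizing q with
  | zero => rfl
  | succ l ih => rw [Function.iterate_succ_apply, ih, Function.iterate_succ_apply]; rfl

theorem TX_inv (T : X ≃ᵐ X) (n W : ℕ) {B : Set X} (hB : MeasurableSet[Inv T W] B) :
    MeasurableSet[Inv (TX T n) W] {q : XX X n | q.1.1 ∈ B} := by
  rw [set_inv_iff] at hB ⊢
  refine ⟨(measurable_fst.comp measurable_fst) hB.1, fun q => ?_⟩
  change ((TX T n)^[W] q).1.1 ∈ B ↔ q.1.1 ∈ B
  rw [TX_it11]
  exact hB.2 _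

end tx

section ctx

variable (c : CtxE)

theorem tup_Dt : Tup c.Dt :=
  ⟨fun _ => c.Dm.comp (c.T.measurable.iterate _), fun _ _ => c.Dv _⟩

theorem tup_D1 : Tup c.D1 := ⟨fun i => ((tup_Dt c).1 i).comp measurable_fst, fun _ _ => c.Dv _⟩

theorem tup_D2 : Tup c.D2 := ⟨fun i => ((tup_Dt c).1 i).comp measurable_snd, fun _ _ => c.Dv _⟩

theorem tup_yX (n : ℕ) (b : Fin (n + 1)) : Tup (c.yX n b) :=
  ⟨fun i => ((tup_Dt c).1 i).comp
    ((measurable_pi_apply b).comp (measurable_fst.comp measurable_snd)), fun _ _ => c.Dv _⟩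

theorem tup_yL (n : ℕ) : Tup (c.yL n) :=
  ⟨fun i => ((tup_Dt c).1 i).comp (measurable_snd.comp measurable_snd), fun _ _ => c.Dv _⟩

theorem tup_yS (W L n : ℕ) (B : Set c.X) (hs : Measurable (c.sel W L n B)) :
    Tup (c.yS W L n B) := by
  refine ⟨fun i => ?_, fun _ _ => c.Dv _⟩
  have he : (fun q : XX c.X (n + 1) => c.Dt i (q.2.1 (c.sel W L n B q))) =
      fun q => ∑ b : Fin (n + 1), if c.sel W L n B q = b then c.yX n b i q else 0 := by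
    funext q
    simp [CtxE.yX]
  change Measurable (fun q : XX c.X (n + 1) => c.Dt i (q.2.1 (c.sel W L n B q)))
  rw [he]
  refine Finset.measurable_sum _ fun b _ => ?_
  exact Measurable.ite (hs (measurableSet_singleton b)) ((tup_yX c n b).1 i) measurable_const

end ctx

/-- the numbers -/
theorem cb1_num (k n : ℕ) (u θ bg : ℝ) (hu : 0 < u) (hθ : 0 ≤ θ)
    (hθs : θ * (10 ^ 6 * ((n : ℝ) + 1) ^ 2 * ((k : ℝ) + 1) ^ 2) ≤ u)
    (hbg : bg ≤ u / (10 ^ 6 * ((k : ℝ) + 1) ^ 2)) :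
    ((k : ℝ) + 32 * (k : ℝ) ^ 2) * bg ≤ 33 / 10 ^ 6 * u ∧
      ((n : ℝ) + 1) ^ 2 * θ ≤ u / 10 ^ 6 ∧ θ ≤ u / 10 ^ 6 := by
  have hn : (1 : ℝ) ≤ ((n : ℝ) + 1) ^ 2 := by
    have : (0 : ℝ) ≤ n := Nat.cast_nonneg n
    nlinarith
  have hk0 : (0 : ℝ) ≤ k := Nat.cast_nonneg k
  have hk : (1 : ℝ) ≤ ((k : ℝ) + 1) ^ 2 := by nlinarith
  have hnθ : 0 ≤ ((n : ℝ) + 1) ^ 2 * θ := by positivity
  have h1 : ((n : ℝ) + 1) ^ 2 * θ ≤ u / 10 ^ 6 := by
    rw [le_div_iff₀ (by norm_num)]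
    calc ((n : ℝ) + 1) ^ 2 * θ * 10 ^ 6 ≤ (((n : ℝ) + 1) ^ 2 * θ) * 10 ^ 6 * ((k : ℝ) + 1) ^ 2 :=
          le_mul_of_one_le_right (by positivity) hk
      _ = θ * (10 ^ 6 * ((n : ℝ) + 1) ^ 2 * ((k : ℝ) + 1) ^ 2) := by ring
      _ ≤ u := hθs
  have h2 : θ ≤ u / 10 ^ 6 := (le_mul_of_one_le_left hθ hn).trans h1
  refine ⟨?_, h1, h2⟩
  have h4 : ((k : ℝ) + 32 * (k : ℝ) ^ 2) * bg ≤
      ((k : ℝ) + 32 * (k : ℝ) ^ 2) * (u / (10 ^ 6 * ((k : ℝ) + 1) ^ 2)) :=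
    mul_le_mul_of_nonneg_left hbg (by positivity)
  refine h4.trans ?_
  rw [mul_div_assoc', div_mul_eq_mul_div, div_le_div_iff₀ (by positivity) (by norm_num)]
  have h5 : (k : ℝ) + 32 * (k : ℝ) ^ 2 ≤ 33 * ((k : ℝ) + 1) ^ 2 := by nlinarith
  have h6 : ((k : ℝ) + 32 * (k : ℝ) ^ 2) * (u * 10 ^ 6) ≤
      (33 * ((k : ℝ) + 1) ^ 2) * (u * 10 ^ 6) :=
    mul_le_mul_of_nonneg_right h5 (by positivity)
  calc ((k : ℝ) + 32 * (k : ℝ) ^ 2) * u * 10 ^ 6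
      = ((k : ℝ) + 32 * (k : ℝ) ^ 2) * (u * 10 ^ 6) := by ring
    _ ≤ _ := h6
    _ = _ := by ring

theorem pf_CB1 (hnx : T_NXI) (htri : T_TRI) (hmn : T_MN) (hms : T_MSM) (hslv : T_SLV)
    (hlmd : T_LMD) (hlmf : T_LMF) (hpnl : T_PNL) (hpxl : T_PXL) (hpxt : T_PXT) (hpxf : T_PXF)
    (hmem : T_MEM) (hqqt : T_QQT) : T_CB1 := by
  rintro c Z hZ ⟨n, w, L, X1, X1', R, θ, hw, hL, hθ, ⟨h, hLh⟩, hRp, hX1, hX1g, hX1pos, hX1', hsd,
    hRT, hRa, hR1, hR2, hRx, hLam, hBG, hθs, hlast⟩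
  haveI := hRp
  have hT : MeasurePreserving c.T c.μ c.μ := c.erg.toMeasurePreserving
  have hW : 0 < c.W w := Nat.mul_pos c.Qpos (Nat.factorial_pos w)
  refine ⟨w, X1, X1', R, θ, hRp, hX1, hX1g, hX1', hsd, hRT, hRa, hR1, hR2, hRx, ?_⟩
  obtain ⟨hZi, hZle, hRt⟩ := hnx c.X c.μ c.T Z c.erg hZ
  obtain ⟨Z', hZ'⟩ : ∃ Z', Z' = nxt c.μ c.T Z := ⟨_, rfl⟩
  rw [← hZ'] at hBG hlast hZi hZle hRt ⊢
  have hX1'Z : MeasurableSet[Z'.1] X1' := hRt _ (inv_rt c.T hW _ hX1')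
  have hX1'm : MeasurableSet X1' := Z'.2 _ hX1'Z
  have hX1m : MeasurableSet X1 := rt_le c.T _ hX1
  obtain ⟨hPp, hP1, hP2, hP3, hP4, hP5⟩ := hpxl c.X c.μ Z' (n + 1) R hR1 hR2
  obtain ⟨hN1, hN2, hN3, hN4, hN5⟩ := hpnl c.X c.μ Z' (n + 1)
  have hTX := hpxt c.X c.μ c.T Z' (n + 1) R hT hZi hR1 hR2 hRT
  obtain ⟨hF1, hF2, hF3, hF4, hF5, hF6, hF7, hF8, hF9⟩ :=
    hpxf c.X c.μ c.T Z' (n + 1) R hT hZi hR1 hR2 hRT
  obtain ⟨hQp, hQT, hQ1, hQ2⟩ := hqqt c.X c.μ c.T Z' R hT hZi hR1 hR2 hRT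
  obtain ⟨hM1, hM2⟩ := (hmem c.X c.μ Z' (n + 1) X1' hX1'Z).2 R hR1 hR2
  obtain ⟨P, hP⟩ : ∃ P, P = PX c.μ Z' (n + 1) R := ⟨_, rfl⟩
  rw [← hP] at hBG hlast hPp hP1 hP2 hP4 hP5 hTX hF1 hF4 hF5 hM2
  simp only [← hP] at hP3 hF2 hF3 hF9 hM1
  haveI := hPp
  haveI := hQp
  obtain ⟨A, hA⟩ : ∃ A, A = {q : XX c.X (n + 1) | q.1.1 ∈ X1'} := ⟨_, rfl⟩
  have hAI : MeasurableSet[Inv (TX c.T (n + 1)) (c.W w)] A := by rw [hA]; exact TX_inv _ _ _ hX1'
  have hIle := inv_le (TX c.T (n + 1)) (c.W w)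
  have hAm : MeasurableSet A := hIle _ hAI
  have hPA : P.real A = c.μ.real X1' := by
    rw [hA]
    exact (hR1.comp hP1).measureReal_preimage hX1'm.nullMeasurableSet
  have hμ := abs_le.1 ((abs_measureReal_sub_le_measureReal_symmDiff hX1m.nullMeasurableSet hX1'm.nullMeasurableSet).trans hsd)
  have hsel := (hslv c X1' (c.W w) L n 0 P hTX hW hL hX1').1
  have tS := tup_yS c (c.W w) L n X1' hsel
  have tL := tup_yL c n
  have tX := fun b => tup_yX c n b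
  -- the mismatch of the selected reference and the last point
  obtain ⟨hn1, hn2, hn3⟩ := cb1_num c.k n (c.μ.real X1) θ _ hX1pos hθ hθs hBG
  have hm1 : m₁ = 13 / 100 := rfl
  have hmsA : ∀ A' : Set (XX c.X (n + 1)), A' ⊆ A →
      MeasurableSet[Inv (TX c.T (n + 1)) (c.W w)] A' →
      ∑ i, P.real (A' ∩ {q | c.yS (c.W w) L n X1' i q ≠ c.yL n i q}) ≤
        1305 / 10000 * P.real A' + 33 / 10 ^ 6 * c.μ.real X1 := by
    intro A' hA'A hA'
    have h1 := hms c X1' (c.W w) L n h P A' hTX hW hL hLh hX1' hA' (fun q hq => by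
      have h2 := hA'A hq
      rw [hA] at h2
      exact h2)
    have h2 : ∑ i, P.real (A' ∩ {q | c.yS (c.W w) L n X1' i q ≠ c.yL n i q}) =
        ∑ i, P.real {q | q ∈ A' ∧ c.Dt i (q.2.1 (c.sel (c.W w) L n X1' q)) ≠ c.Dt i q.2.2} := rfl
    rw [h2]
    rw [hm1] at h1
    linarith
  obtain ⟨ms, hmse⟩ : ∃ ms, ms = ∑ i, P.real (A ∩ {q | c.yS (c.W w) L n X1' i q ≠ c.yL n i q}) :=
    ⟨_, rfl⟩
  have hms2 : ms ≤ 1305 / 10000 * P.real A + 33 / 10 ^ 6 * c.μ.real X1 := by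
    rw [hmse]
    exact hmsA A subset_rfl hAI
  -- the asymptotic error of the selected reference
  have hl1 := hlmd (XX c.X (n + 1)) P (TX c.T (n + 1)) c.k c.β c.σ (c.W w) (c.U w)
    (c.yS (c.W w) L n X1') (c.yL n) A hTX hW (c.hU w) tS tL hAI
  rw [← hmse] at hl1
  have hl2 := hlmf (XX c.X (n + 1)) c.X P c.μ (TX c.T (n + 1)) c.T (fun q => q.2.2) c.k c.β c.σ
    (c.W w) (c.U w) c.Dt A X1' hF4 (tup_Dt c) hAm hX1'm
  have hl3 : P.real (A \ (fun q : XX c.X (n + 1) => q.2.2) ⁻¹' X1') ≤ θ := by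
    have h1 : P.real (A \ (fun q : XX c.X (n + 1) => q.2.2) ⁻¹' X1') =
        P.real ((fun q : XX c.X (n + 1) => q.1) ⁻¹' {r | r.1 ∈ X1' ∧ r.2 ∉ X1'}) := by
      refine measureReal_congr ?_
      filter_upwards [hM2] with q hq
      have h2 : (q ∈ A \ (fun q : XX c.X (n + 1) => q.2.2) ⁻¹' X1') ↔
          (q ∈ (fun q : XX c.X (n + 1) => q.1) ⁻¹' {r | r.1 ∈ X1' ∧ r.2 ∉ X1'}) := by
        rw [hA]
        change (q.1.1 ∈ X1' ∧ q.2.2 ∉ X1') ↔ (q.1.1 ∈ X1' ∧ q.1.2 ∉ X1')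
        rw [hq]
      exact propext h2
    have hm : MeasurableSet {r : c.X × c.X | r.1 ∈ X1' ∧ r.2 ∉ X1'} :=
      (measurable_fst hX1'm).inter (measurable_snd hX1'm.compl)
    rw [h1, hP1.measureReal_preimage hm.nullMeasurableSet]
    refine (measureReal_mono ?_).trans hRx
    intro r hr
    exact fun h => hr.2 (h.1 hr.1)
  have hl4 : Lam (c.U w) (c.W w) P (TX c.T (n + 1)) c.β c.σ (c.yS (c.W w) L n X1') A ≤
      κ₂ * c.μ.real X1 + 2 * θ + ms := by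
    have h1 : Lam (c.U w) (c.W w) P (TX c.T (n + 1)) c.β c.σ (c.yL n) A =
        Lam (c.U w) (c.W w) P (TX c.T (n + 1)) c.β c.σ (fun i q => c.Dt i q.2.2) A := rfl
    rw [h1] at hl1
    linarith
  have hl5 : Lam (c.U w) (c.W w) P (TX c.T (n + 1)) c.β c.σ (c.yL n) A ≤
      κ₂ * c.μ.real X1 + 2 * θ := by
    have h1 : Lam (c.U w) (c.W w) P (TX c.T (n + 1)) c.β c.σ (c.yL n) A =
        Lam (c.U w) (c.W w) P (TX c.T (n + 1)) c.β c.σ (fun i q => c.Dt i q.2.2) A := rfl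
    rw [h1]
    linarith
  -- the exceptional sets
  have hk2 : κ₂ = 1131 / 20000 := rfl
  have hb1 : P.real (A ∩ {q | Mis P (Inv (TX c.T (n + 1)) (c.W w)) (c.yL n)
      (c.yS (c.W w) L n X1') q ≤ 1 / 2 ∧ ∀ b, 1 / 2 < Mis P (Inv (TX c.T (n + 1)) (c.W w))
      (c.yL n) (c.yX n b) q}) ≤ 979 / 1000 * c.μ.real X1 := by
    rw [← hA] at hlast
    rw [hk2] at hl4 hl5
    refine hlast.trans ?_
    have h1 : P.real A ≤ c.μ.real X1 + θ := by rw [hPA]; linarith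
    linarith
  obtain ⟨hb2, hb3⟩ := mis_low (Inv (TX c.T (n + 1)) (c.W w)) hIle tS tL hAI (P := P) (1 / 2)
  have hb4 := hmsA _ Set.inter_subset_left hb2
  have hb5 : P.real (A ∩ {q | 1 / 2 < Mis P (Inv (TX c.T (n + 1)) (c.W w))
      (c.yS (c.W w) L n X1') (c.yL n) q}) ≤ 1 / 10 ^ 4 * c.μ.real X1 := by
    linarith
  have hsy := mis_symm (Inv (TX c.T (n + 1)) (c.W w)) P (c.yL n) (c.yS (c.W w) L n X1')
  have hsyb := fun b => mis_symm (Inv (TX c.T (n + 1)) (c.W w)) P (c.yL n) (c.yX n b)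
  -- the good set
  have hsub : A ⊆ (A ∩ {q | ∃ b, Mis P (Inv (TX c.T (n + 1)) (c.W w)) (c.yX n b) (c.yL n) q ≤
      1 / 2}) ∪
      ((A ∩ {q | Mis P (Inv (TX c.T (n + 1)) (c.W w)) (c.yL n) (c.yS (c.W w) L n X1') q ≤ 1 / 2 ∧
        ∀ b, 1 / 2 < Mis P (Inv (TX c.T (n + 1)) (c.W w)) (c.yL n) (c.yX n b) q}) ∪
      (A ∩ {q | 1 / 2 < Mis P (Inv (TX c.T (n + 1)) (c.W w)) (c.yS (c.W w) L n X1')
        (c.yL n) q})) := by
    intro q hq
    by_cases h1 : ∃ b, Mis P (Inv (TX c.T (n + 1)) (c.W w)) (c.yX n b) (c.yL n) q ≤ 1 / 2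
    · exact Or.inl ⟨hq, h1⟩
    · push Not at h1
      by_cases h2 : 1 / 2 < Mis P (Inv (TX c.T (n + 1)) (c.W w)) (c.yS (c.W w) L n X1')
        (c.yL n) q
      · exact Or.inr (Or.inr ⟨hq, h2⟩)
      · refine Or.inr (Or.inl ⟨hq, ?_, fun b => ?_⟩)
        · rw [hsy]
          exact not_lt.1 h2
        · rw [hsyb b]
          exact h1 b
  have hG1 := (measureReal_mono (μ := P) hsub).trans ((measureReal_union_le _ _).trans
    (add_le_add le_rfl (measureReal_union_le _ _)))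
  have hG2 : P.real (A ∩ {q | ∃ b, Mis P (Inv (TX c.T (n + 1)) (c.W w))
      (c.yX n b) (c.yL n) q ≤ 1 / 2}) ≤
      ∑ b, P.real (A ∩ {q | Mis P (Inv (TX c.T (n + 1)) (c.W w)) (c.yX n b) (c.yL n) q ≤
        1 / 2}) := by
    refine le_trans (measureReal_mono ?_) (measureReal_iUnion_fintype_le _)
    rintro q ⟨hqA, b, hb⟩
    exact Set.mem_iUnion.2 ⟨b, hqA, hb⟩
  -- a good reference
  obtain ⟨b, hb⟩ : ∃ b, 100 * θ < P.real (A ∩ {q | Mis P (Inv (TX c.T (n + 1)) (c.W w))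
      (c.yX n b) (c.yL n) q ≤ 1 / 2}) := by
    by_contra hno
    push Not at hno
    have h1 : ∑ b, P.real (A ∩ {q | Mis P (Inv (TX c.T (n + 1)) (c.W w)) (c.yX n b) (c.yL n) q ≤
        1 / 2}) ≤ ∑ _b : Fin (n + 1), 100 * θ := Finset.sum_le_sum fun b _ => hno b
    rw [Finset.sum_const, Finset.card_univ, Fintype.card_fin, nsmul_eq_mul] at h1
    have h2 : ((n + 1 : ℕ) : ℝ) * (100 * θ) ≤ 100 * (((n : ℝ) + 1) ^ 2 * θ) := by
      push_cast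
      have hn0 : (0 : ℝ) ≤ n := Nat.cast_nonneg n
      nlinarith [mul_nonneg hn0 hθ, mul_nonneg (mul_nonneg hn0 hn0) hθ]
    have h3 : c.μ.real X1 - θ ≤ P.real A := by rw [hPA]; linarith
    linarith
  refine hb.trans_le (le_of_eq ?_)
  have hg := hF2 b
  have hmn' := (hmn (XX c.X (n + 1)) (c.X × c.X) P (QQ c.μ Z' R) (TX c.T (n + 1)) (TT c.T)
    (fun q => (q.2.1 b, q.2.2)) c.k c.D1 c.D2 hTX hQT hg (tup_D1 c) (tup_D2 c)).1 (c.W w)
  have hSm : MeasurableSet {q : c.X × c.X | q.1 ∈ X1' ∧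
      Mis (QQ c.μ Z' R) (Inv (TT c.T) (c.W w)) c.D1 c.D2 q ≤ 1 / 2} := by
    have hMm : Measurable (Mis (QQ c.μ Z' R) (Inv (TT c.T) (c.W w)) c.D1 c.D2) := by
      unfold Mis
      exact Finset.measurable_sum _ fun i _ =>
        (stronglyMeasurable_condExp.mono (inv_le _ _)).measurable
    have h2 : MeasurableSet {q : c.X × c.X |
        Mis (QQ c.μ Z' R) (Inv (TT c.T) (c.W w)) c.D1 c.D2 q ≤ 1 / 2} :=
      measurableSet_le hMm measurable_const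
    exact (measurable_fst hX1'm).inter h2
  rw [← hg.1.measureReal_preimage hSm.nullMeasurableSet]
  refine measureReal_congr ?_
  filter_upwards [hmn', hM1 b] with q hq1 hq2
  refine propext ?_
  change (q ∈ A ∧ Mis P (Inv (TX c.T (n + 1)) (c.W w)) (c.yX n b) (c.yL n) q ≤ 1 / 2) ↔
    (q.2.1 b ∈ X1' ∧ Mis (QQ c.μ Z' R) (Inv (TT c.T) (c.W w)) c.D1 c.D2 (q.2.1 b, q.2.2) ≤
      1 / 2)
  have h1 : Mis P (Inv (TX c.T (n + 1)) (c.W w)) (c.yX n b) (c.yL n) q =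
      Mis (QQ c.μ Z' R) (Inv (TT c.T) (c.W w)) c.D1 c.D2 (q.2.1 b, q.2.2) := hq1
  rw [h1, hA]
  change (q.1.1 ∈ X1' ∧ _) ↔ _
  rw [hq2]

end Pool.Agent.H66.SG.CB1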